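import Pool.Agent.U422.CornerCount
import Pool.Agent.U422.GummExamples
import Pool.Agent.U422.TameZ

/-!
# The number of corners in unions of pieces closed under Taylor operations

Let `G` be any finite abelian group. Corners in `G × G` are the triples of points whose pairs lie on
fibres of the three projections `x`, `y`, `x + y`. We consider the following classes of sets
`B ⊆ G × G`.

* *WNU-closed* sets: there are **some** (arbitrary) idempotent weak near unanimity operations on
  `G`, of one arity `k ≥ 2`, one for each of the projections `x`, `y`, `x + y`, such that `B` is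
  closed under them: `t(x,…,x,y,x,…,x)` does not depend on the position of `y`. The operations are
  unrelated to the addition, and they need not be coordinatewise in `F_2^n`. Examples are all
  commutative idempotent binary operations, semilattice, majority and near unanimity operations.
  By a theorem of Maróti and McKenzie such operations exist as soon as `B` is closed under any
  idempotent operations on the projections satisfying Taylor identities, in other words unless the
  relation `{(x, y, x + y) : (x, y) ∈ B}` interprets everything (the algebraic form of the dichotomy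
  between tractable and intractable constraint satisfaction problems).
* *Gumm-closed* sets: the same for Gumm operations (congruence modular type; majority, near
  unanimity, Jónsson and Mal'cev operations are special cases).
* *Parallelogram-closed* sets: if `z, z + u, z + v ∈ B` and `u`, `v` are in the kernels of two
  different projections, then `z + u + v ∈ B`.

**Theorem.** (1) If `A ⊆ G × G` is the union of `L` WNU-closed sets then `A` has at least
`|A|³ / (L³ |G|³)` corners, including the `|A|` trivial ones. So a set of density `α` which is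
WNU-closed has corner density at least `α³`, as for random sets; there is equality for `A = G × G`
and, more generally, for products of two cosets of a subgroup. For arbitrary sets no polynomial
bound is possible in general (Behrend), and for `F_2^n` it would be the answer to Q1. (2) If every
point of `A` is in at most `s` corners then `|A|² ≤ (s + 1) L² |G|³`. (3) The *robust* form of Q1 for
these sets: if `L³` times the number of corners is at most `4^{(3/2 - 3 c) n}` then
`|A| ≤ 4^{(1 - c) n}`. If `A` is corner-free then it can be a union of sets of all three types.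

Idea of the proof. Let `θ_0, θ_1, θ_2` be the kernels of the projections on a WNU-closed set `B`; their
pairwise intersections are trivial. A *polynomial* is a map of `B` which preserves all the `θ_i`.

*Centrality.* `θ_0` centralizes `θ_1 ∨ θ_2`: if `F` is a binary polynomial, `(x, y) ∈ θ_1 ∨ θ_2`,
`(z, z') ∈ θ_0` and `F(x, z) = F(y, z)`, then `F(x, z') = F(y, z')`. For the proof put
`μ = θ_0 ∧ (θ_1 ∨ θ_2)`. The translates `x ↦ w(x, c_2, …, c_k)` of the weak near unanimity operation
are injective on the classes of `μ`. Therefore we can choose a class of `μ` of maximal size and move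
it into the image `N` of an idempotent polynomial, of minimal size, such that all translates,
followed by the retraction, are permutations of `N`. On `N` there are local additions, `θ_1` and `θ_2`
permute, and there is a difference operation; applied to `F(s, t) - F(s, z') + a` the trivial
intersections of `θ_0` with `θ_1` and `θ_2` show that this does not depend on `s`.

*Recursive decomposition.* Let `ρ = (θ_1 ∨ θ_2) ∧ (θ_0 ∨ θ_2) ∧ (θ_0 ∨ θ_1)`. The classes of `ρ` are
again WNU-closed. We decompose them in the same way, until `θ_i ∨ θ_j = 1` for all `i ≠ j` on the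
blocks. By centrality all translates are permutations of such a block, so the `θ_i` permute and
the block is a latin square: with `m²` points and `m³` corners. The inequality
`|B|³ ≤ C(B) |B_0| |B_1| |B_2|` for the number `C(B)` of corners and the projections `B_i` follows by
induction, with a weighted form of the Loomis–Whitney inequality,
`∑ (|C_0| |C_1| |C_2|)^(1/2) ≤ (|B_0| |B_1| |B_2|)^(1/2)` for the classes `C` of `ρ` in `B`, and the
inequality of Hölder.
-/

set_option autoImplicit false

namespace Pool.Agent.Results.MP_db4732_co.CornerCount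

open Finset Pool.Agent.R181.Maj Pool.Agent.U422.Gumm Pool.Agent.U422.Taylor
  Pool.Agent.U422.Corner

/-- subgroups are closed under `x_1 + ... + x_k` with `k = |G| + 1` -/
theorem wnu_of_subgroup {G : Type} [AddCommGroup G] [Fintype G] {A : Finset (G × G)}
    (h0 : 0 ∈ A) (h : ∀ a ∈ A, ∀ b ∈ A, a + b ∈ A) : WNUClosed A := by
  classical
  refine ⟨Fintype.card G + 1, fun _ x => ∑ j, x j, ?_, fun _ => ⟨?_, ?_⟩, ?_⟩
  · have : 0 < Fintype.card G := Fintype.card_pos_iff.2 ⟨0⟩
    omega
  · intro x
    show ∑ _j : Fin (Fintype.card G + 1), x = x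
    rw [sum_const, card_univ, Fintype.card_fin, succ_nsmul, card_nsmul_eq_zero, zero_add]
  · intro l m x y
    have key : ∀ l : Fin (Fintype.card G + 1), ∑ j, Function.update (fun _ => x) l y j =
        y + ∑ _j ∈ (univ : Finset (Fin (Fintype.card G + 1))) \ {l}, x := by
      intro l
      rw [sum_update_of_mem (mem_univ l)]
    show ∑ j, Function.update (fun _ => x) l y j = ∑ j, Function.update (fun _ => x) m y j
    rw [key, key, sum_const, sum_const, card_sdiff_of_subset (subset_univ _),
      card_sdiff_of_subset (subset_univ _), card_singleton, card_singleton]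
  · intro a ha
    refine ⟨∑ j, a j, ?_, fun i => ?_⟩
    · exact sum_induction a (fun x => x ∈ A) (fun x y hx hy => h x hx y hy) h0 fun j _ => ha j
    · exact map_sum (AddMonoidHom.mk' (pr (G := G) i) (pr_add i)) a univ

theorem affine_closed {G : Type} [AddCommGroup G] {A : Finset (G × G)}
    (h : ∀ a ∈ A, ∀ b ∈ A, ∀ c ∈ A, a - b + c ∈ A) : GummClosed A ∧ ParallelogramClosed A := by
  constructor
  · refine ⟨0, fun _ => true, fun _ _ x _ _ => x, fun _ x y z => x - y + z, fun i => ?_,
      fun _ a ha b _ c _ => ⟨a, ha, fun _ => rfl⟩, fun a ha b hb c hc => ⟨_, h a ha b hb c hc,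
        fun i => ?_⟩⟩
    · exact gumm_of_malcev fun x y => ⟨sub_add_cancel x y, (congrArg (· + y) (sub_self x)).trans (zero_add y)⟩
    · rw [pr_add, pr_sub]
  · intro i j _ z hz u v _ _ hu hv
    have := h _ hu _ hz _ hv
    have e : z + u - z + (z + v) = z + u + v := by abel
    rwa [e] at this

/-- the corner-free subgroup of all `((p, q), (r, r - q))` -/
theorem sharp (K : Type) [AddCommGroup K] [Fintype K] :
    ∃ A : Finset ((K × K) × (K × K)), CornerFree A ∧ WNUClosed A ∧ GummClosed A ∧
      ParallelogramClosed A ∧ #A ^ 2 = Fintype.card (K × K) ^ 3 := by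
  classical
  let φ : K × K × K → (K × K) × (K × K) := fun t => ((t.1, t.2.1), (t.2.2, t.2.2 - t.2.1))
  have hφ : Function.Injective φ := by
    rintro ⟨a, b, c⟩ ⟨a', b', c'⟩ h
    have h1 := congrArg (fun t => t.1.1) h
    have h2 := congrArg (fun t => t.1.2) h
    have h3 := congrArg (fun t => t.2.1) h
    simp only [φ] at h1 h2 h3
    rw [h1, h2, h3]
  have hmem : ∀ x : (K × K) × (K × K), x ∈ univ.image φ ↔ x.2.2 = x.2.1 - x.1.2 := by
    intro x
    rw [mem_image]
    constructor
    · rintro ⟨t, -, rfl⟩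
      rfl
    · intro h
      refine ⟨(x.1.1, x.1.2, x.2.1), mem_univ _, ?_⟩
      refine Prod.ext rfl (Prod.ext rfl ?_)
      exact h.symm
  refine ⟨univ.image φ, ?_, ?_⟩
  · rintro ⟨x1, x2⟩ ⟨y1, y2⟩ ⟨z1, z2⟩ h1 h2 h3
    rw [hmem] at h1 h2 h3
    have e1 : y2 = y1 - x2 := h1
    have e2 : y2 + z2 = y1 + z1 - x2 := h2
    have e3 : y2 = y1 - (x2 + z2) := h3
    have e4 : z2 = 0 := by
      rw [e1] at e3
      exact add_eq_left.1 (sub_right_inj.1 e3).symm
    have e5 : z1 = 0 := by
      rw [e4, add_zero, e1] at e2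
      exact add_eq_left.1 (sub_left_inj.1 e2).symm
    rw [e4, e5]
    rfl
  · have h := affine_closed (A := univ.image φ) (by
      intro a ha b hb c hc
      rw [hmem] at ha hb hc ⊢
      show a.2.2 - b.2.2 + c.2.2 = (a.2.1 - b.2.1 + c.2.1) - (a.1.2 - b.1.2 + c.1.2)
      rw [ha, hb, hc]
      abel)
    refine ⟨wnu_of_subgroup ?_ ?_, h.1, h.2, ?_⟩
    · rw [hmem]
      simp
    · intro a ha b hb
      rw [hmem] at ha hb ⊢
      show a.2.2 + b.2.2 = (a.2.1 + b.2.1) - (a.1.2 + b.1.2)
      rw [ha, hb]
      abel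
    rw [card_image_of_injective _ hφ, card_univ]
    simp only [Fintype.card_prod]
    ring

/-- **Theorem.** (1) Let `G` be a finite abelian group and let `A ⊆ G × G` be the union of `L`
WNU-closed sets. Then `|A|³ ≤ L³ |G|³ C`, where `C` is the number of corners of `A`, including the
trivial ones. (2) If every point of `A` is in at most `s` nontrivial corners then
`|A|² ≤ (s + 1) L² |G|³`. (3) If `A ⊆ (F_2^n)²` and `L³ C ≤ 4^{(3/2 - 3 c) n}` then
`|A| ≤ 4^{(1 - c) n}`. (4) If `A` is corner-free and the union of `L` sets which are WNU-closed,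
Gumm-closed or parallelogram-closed then `|A| ≤ L |G|^{3/2}`. (5) In particular, for all `c > 0`,
corner-free subsets of `(F_2^n)^2` which are unions of at most `4^{(1/4 - c) n}` such sets have at
most `4^{(1 - c) n}` elements. (6) The exponent `3/2` in (4) is best possible for all three classes,
with `L = 1` and for all groups `G = K × K`. (7) Sets closed under commutative idempotent binary
operations on the projections are WNU-closed, and sets closed under majority, near unanimity or
Mal'cev operations are Gumm-closed. -/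
theorem result :
    (∀ (G : Type) [AddCommGroup G] [Fintype G] (A : Finset (G × G)) (L : ℕ)
      (B : Fin L → Finset (G × G)), (∀ i, B i ⊆ A) → (∀ a ∈ A, ∃ i, a ∈ B i) →
      (∀ i, WNUClosed (B i)) → #A ^ 3 ≤ L ^ 3 * Fintype.card G ^ 3 * (corners A).ncard) ∧
    (∀ (G : Type) [AddCommGroup G] [Fintype G] (A : Finset (G × G)) (s L : ℕ)
      (B : Fin L → Finset (G × G)), FewCorners A s → (∀ i, B i ⊆ A) → (∀ a ∈ A, ∃ i, a ∈ B i) →
      (∀ i, WNUClosed (B i)) → #A ^ 2 ≤ (s + 1) * L ^ 2 * Fintype.card G ^ 3) ∧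
    (∀ (c : ℝ) (n : ℕ) (A : Finset ((Fin n → ZMod 2) × (Fin n → ZMod 2))) (L : ℕ)
      (B : Fin L → Finset ((Fin n → ZMod 2) × (Fin n → ZMod 2))),
      (∀ i, B i ⊆ A) → (∀ a ∈ A, ∃ i, a ∈ B i) → (∀ i, WNUClosed (B i)) →
      (L : ℝ) ^ 3 * (corners A).ncard ≤ (4 : ℝ) ^ ((3 / 2 - 3 * c) * n) →
      (#A : ℝ) ≤ (4 : ℝ) ^ ((1 - c) * n)) ∧
    (∀ (G : Type) [AddCommGroup G] [Fintype G] (A : Finset (G × G)) (L : ℕ)
      (B : Fin L → Finset (G × G)), CornerFree A → (∀ i, B i ⊆ A) → (∀ a ∈ A, ∃ i, a ∈ B i) →
      (∀ i, WNUClosed (B i) ∨ GummClosed (B i) ∨ ParallelogramClosed (B i)) →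
      #A ^ 2 ≤ L ^ 2 * Fintype.card G ^ 3) ∧
    (∀ (c : ℝ), 0 < c → ∀ (n : ℕ) (A : Finset ((Fin n → ZMod 2) × (Fin n → ZMod 2))) (L : ℕ)
      (B : Fin L → Finset ((Fin n → ZMod 2) × (Fin n → ZMod 2))), CornerFree A →
      (∀ i, B i ⊆ A) → (∀ a ∈ A, ∃ i, a ∈ B i) →
      (∀ i, WNUClosed (B i) ∨ GummClosed (B i) ∨ ParallelogramClosed (B i)) →
      (L : ℝ) ≤ (4 : ℝ) ^ ((1 / 4 - c) * n) → (#A : ℝ) ≤ (4 : ℝ) ^ ((1 - c) * n)) ∧
    (∀ (K : Type) [AddCommGroup K] [Fintype K], ∃ A : Finset ((K × K) × (K × K)),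
      CornerFree A ∧ WNUClosed A ∧ GummClosed A ∧ ParallelogramClosed A ∧
      #A ^ 2 = Fintype.card (K × K) ^ 3) ∧
    (∀ (G : Type) [AddCommGroup G] (A : Finset (G × G)),
      ((∃ m : Fin 3 → G → G → G, (∀ i x, m i x x = x) ∧ (∀ i x y, m i x y = m i y x) ∧
        ∀ a ∈ A, ∀ b ∈ A, ∃ d ∈ A, ∀ i, pr i d = m i (pr i a) (pr i b)) → WNUClosed A) ∧
      (((∃ p : Fin 3 → G → G → G → G, ((∀ i, IsMaj (p i)) ∨ ∀ i, IsMalcev (p i)) ∧
        ∀ a ∈ A, ∀ b ∈ A, ∀ c ∈ A, ∃ d ∈ A, ∀ i, pr i d = p i (pr i a) (pr i b) (pr i c)) ∨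
      ∃ (k : ℕ) (t : Fin 3 → (Fin (k + 1) → G) → G), (∀ i, IsNU (t i)) ∧
        ∀ a : Fin (k + 1) → G × G, (∀ j, a j ∈ A) → ∃ d ∈ A, ∀ i,
          pr i d = t i fun j => pr i (a j)) → GummClosed A)) := by
  have main : ∀ (G : Type) [AddCommGroup G] [Fintype G] (A : Finset (G × G)) (L : ℕ)
      (B : Fin L → Finset (G × G)), CornerFree A → (∀ i, B i ⊆ A) → (∀ a ∈ A, ∃ i, a ∈ B i) →
      (∀ i, WNUClosed (B i) ∨ GummClosed (B i) ∨ ParallelogramClosed (B i)) →
      #A ^ 2 ≤ L ^ 2 * Fintype.card G ^ 3 := by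
    intro G _ _ A L B hA hB hcov hp
    refine union_of B hcov fun i => ?_
    rcases hp i with h | h
    · have h1 := few_bound (hA.mono (hB i)).few h
      rwa [zero_add, one_mul] at h1
    · exact bound (hA.mono (hB i)) h
  refine ⟨fun G _ _ A L B hB hcov hw => count_union B hB hcov hw, ?_, ?_, main, ?_, sharp, ?_⟩
  · intro G _ _ A s L B hA hB hcov hp
    have h := union_of (M := (s + 1) * Fintype.card G ^ 3) B hcov fun i =>
      few_bound (hA.mono (hB i)) (hp i)
    refine h.trans (le_of_eq ?_)
    ring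
  · intro c n A L B hB hcov hp hL
    have h1 := count_union B hB hcov hp
    have h2 : Fintype.card (Fin n → ZMod 2) = 2 ^ n := by
      rw [Fintype.card_fun, ZMod.card, Fintype.card_fin]
    rw [h2] at h1
    have h3 : (#A : ℝ) ^ 3 ≤ (L : ℝ) ^ 3 * ((2 : ℝ) ^ n) ^ 3 * (corners A).ncard := by
      exact_mod_cast h1
    have e : (2 : ℝ) = (4 : ℝ) ^ (1 / 2 : ℝ) := by
      rw [show (4 : ℝ) = (2 : ℝ) ^ (2 : ℝ) by norm_num, ← Real.rpow_mul (by norm_num)]
      norm_num
    have e1 : ((2 : ℝ) ^ n) ^ 3 = (4 : ℝ) ^ ((3 / 2 : ℝ) * n) := by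
      rw [← pow_mul, e, ← Real.rpow_natCast, ← Real.rpow_mul (by norm_num)]
      congr 1
      push_cast
      ring
    have h4 : (#A : ℝ) ^ 3 ≤ ((4 : ℝ) ^ ((1 - c) * n)) ^ 3 := by
      calc (#A : ℝ) ^ 3 ≤ (L : ℝ) ^ 3 * ((2 : ℝ) ^ n) ^ 3 * (corners A).ncard := h3
        _ = ((L : ℝ) ^ 3 * (corners A).ncard) * ((2 : ℝ) ^ n) ^ 3 := by ring
        _ ≤ (4 : ℝ) ^ ((3 / 2 - 3 * c) * n) * ((2 : ℝ) ^ n) ^ 3 :=
            mul_le_mul_of_nonneg_right hL (by positivity)
        _ = ((4 : ℝ) ^ ((1 - c) * n)) ^ 3 := by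
            rw [e1, ← Real.rpow_natCast, ← Real.rpow_mul (by norm_num),
              ← Real.rpow_add (by norm_num)]
            congr 1
            push_cast
            ring
    exact le_of_pow_le_pow_left₀ three_ne_zero (by positivity) h4
  · intro c hc n A L B hA hB hcov hp hL
    have h1 := main _ A L B hA hB hcov hp
    have h2 : Fintype.card (Fin n → ZMod 2) = 2 ^ n := by
      rw [Fintype.card_fun, ZMod.card, Fintype.card_fin]
    rw [h2] at h1
    have h3 : (#A : ℝ) ^ 2 ≤ (L : ℝ) ^ 2 * ((2 : ℝ) ^ n) ^ 3 := by exact_mod_cast h1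
    have h4 : ((4 : ℝ) ^ ((1 - c) * n)) ^ 2 = ((4 : ℝ) ^ ((1 / 4 - c) * n)) ^ 2 * ((2 : ℝ) ^ n) ^ 3 := by
      have e : (2 : ℝ) = (4 : ℝ) ^ (1 / 2 : ℝ) := by
        rw [show (4 : ℝ) = (2 : ℝ) ^ (2 : ℝ) by norm_num, ← Real.rpow_mul (by norm_num)]
        norm_num
      have e1 : ((2 : ℝ) ^ n) ^ 3 = (4 : ℝ) ^ ((3 / 2 : ℝ) * n) := by
        rw [← pow_mul, e, ← Real.rpow_natCast, ← Real.rpow_mul (by norm_num)]
        congr 1
        push_cast
        ring
      rw [e1, ← Real.rpow_natCast, ← Real.rpow_natCast, ← Real.rpow_mul (by norm_num),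
        ← Real.rpow_mul (by norm_num), ← Real.rpow_add (by norm_num)]
      congr 1
      push_cast
      ring
    refine le_of_sq_le_sq ?_ (by positivity)
    rw [h4]
    refine h3.trans (mul_le_mul_of_nonneg_right ?_ (by positivity))
    exact pow_le_pow_left₀ (by positivity) hL 2
  · intro G _ A
    refine ⟨?_, ?_⟩
    · rintro ⟨m, h1, h2, hA⟩
      exact ⟨2, fun i x => m i (x 0) (x 1), le_rfl,
        fun i => Pool.Agent.U422.Tame.wnu_of_comm (h2 i) (h1 i), fun a ha => hA _ (ha 0) _ (ha 1)⟩
    rintro (⟨p, h, hA⟩ | ⟨k, t, h, hA⟩)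
    · rcases h with h | h
      · exact ⟨0, fun _ => true, fun i _ => p i, fun _ _ _ z => z,
          fun i => gumm_of_maj (h i), fun _ => hA, fun a _ b _ c hc => ⟨c, hc, fun _ => rfl⟩⟩
      · exact ⟨0, fun _ => true, fun _ _ x _ _ => x, p, fun i => gumm_of_malcev (h i),
          fun _ a ha b _ c _ => ⟨a, ha, fun _ => rfl⟩, hA⟩
    · refine ⟨k, fun _ => true, fun i => nuOp (t i), fun _ _ _ z => z,
        fun i => gumm_of_nu (h i), fun j a ha b hb c hc => ?_, fun a _ b _ c hc =>
          ⟨c, hc, fun _ => rfl⟩⟩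
      obtain ⟨d, hd, hd'⟩ := hA (fun l => if l < j.rev then a else if l = j.rev then b else c)
        (fun l => by split_ifs <;> assumption)
      refine ⟨d, hd, fun i => ?_⟩
      rw [hd']
      unfold nuOp
      congr 1
      funext l
      split_ifs <;> rfl

end Pool.Agent.Results.MP_db4732_co.CornerCount
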