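import Pool.Agent.U465.CoCor

set_option autoImplicit false

/-!
# Corner-free sets with prescribed symmetries

Corner-free subsets of `(F_2^n)^2` which are invariant under *all* permutations of the `n` coordinates
have at most `4 * 3 ^ n` elements, and a power-saving bound is known for all large groups of
permutations. This file treats groups `G` of permutations of the coordinates which have few elements
with small support, in the sense that `Θ_G(δ) = ∑_{π ∈ G, π ≠ 1} exp (-δ moved(π))` is small. For these
nothing is lost: the growth rate of all corner-free sets is attained by the `G`-invariant ones, and a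
power-saving bound for the invariant sets would imply the one for all sets. Examples are the cyclic
shifts, the left and right translations of any group, the groups with `log |G|` small against the
minimal degree, and the group `S_m × S_m` of the permutations of the rows and of the columns of `m × m`
matrices, which has `exp ((2 + o(1)) √n log √n)` elements, `n = m ^ 2`.

Proof. Choose disjoint random sets `M, M' ⊆ {1, …, n}` of density `1 / Q`. For all pairs
`(g, h) ≠ (1, 1)` of elements of `G` there is, with high probability, a coordinate `i` such that `i`,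
`g i`, `h i` are in `M ∪ M'`, but not all in `M` and not all in `M'` (the failure probability is at most
`exp (-|supp g ∪ supp h| / (9 Q ^ 3))`, as there are many disjoint triples). Take a largest corner-free
set in the coordinates outside `M ∪ M'`, put the letter `(0, 0)` on `M` and the letter `(a, 0)`, `a ≠ 0`,
on `M'`, and let `A` be the union of the images of this set under `G`. For a corner in `A` whose points do
not all belong to the same image, move the first point back by `G`: in the coordinate `i` the three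
letters are a corner (possibly trivial) in a set of two letters, so they are equal, a contradiction.
-/

namespace Pool.Agent.Results.MP_db4732_co.PrescribedSymmetry

open Pool.Agent.U465.Co Filter Topology

/-- Let `H ≠ 0` be a finite abelian group (`H = F_2` in the problem), `N = |H|`. Let `r H n` be the
largest size of a corner-free subset of `(H^n)^2` and `lam H` the growth rate. For a group `G` of
permutations of the finite set `ι` of coordinates, `n = |ι|`, let `rG H G` be the largest size of a
`G`-invariant corner-free subset of `(H^ι)^2`, and `Theta G δ = ∑_{π ≠ 1} exp (-δ moved(π))`.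

1. If `0 < ε ≤ 1` and `Theta G (ε ^ 3 / 2250) ≤ 1 / 5` then `rG H G ≥ r H m` for some
   `m ≥ (1 - ε) n`, and `r H n ≤ N^(2 ε n) rG H G`.
2. For every `ρ < lam H` there are `δ > 0` and `n₀` such that `ρ^n ≤ rG H G ≤ (lam H)^n` if
   `n ≥ n₀` and `Theta G δ ≤ 1 / 5`.
3. For every `ρ < lam H` there is `C` such that `ρ^n ≤ rG H G` if `n ≥ C` and every `π ≠ 1` in `G`
   moves at least `C (1 + log |G|)` coordinates.
4. For every `ρ < lam H` and every finite group `Γ` of sufficiently large order there is a
   corner-free subset of `(H^Γ)^2` with at least `ρ^|Γ|` elements which is invariant under the left and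
   the right translations of `Γ` (for cyclic `Γ`: under the cyclic shifts).
5. For every `ρ < lam H` and all sufficiently large `m` there is a corner-free set of at least
   `ρ^(m^2)` pairs of matrices in `H^{m × m}` which is invariant under all permutations of the rows and
   all permutations of the columns.
6. Let `G j` be groups of permutations of `ι j`, `j ∈ ℕ`, with `|ι j| → ∞` and
   `Theta (G j) δ → 0` for every `δ > 0`. Then the power-saving bound `|A| ≤ C 4^((1 - c) n)` for all
   corner-free `A ⊆ (F_2^n)^2` holds, for some `c > 0` and `C`, if and only if it holds, for some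
   `c > 0` and `C`, for the corner-free subsets of `(F_2^(ι j))^2` which are invariant under `G j`. -/
theorem result :
    (∀ (H : Type) [AddCommGroup H] [Finite H] [Nontrivial H],
      (∀ ε : ℝ, 0 < ε → ε ≤ 1 → ∀ (ι : Type) [Fintype ι] (G : Subgroup (Equiv.Perm ι)),
        Theta G (ε ^ 3 / 2250) ≤ 1 / 5 →
        (∃ m : ℕ, (1 - ε) * Fintype.card ι ≤ m ∧ m ≤ Fintype.card ι ∧ r H m ≤ rG H G) ∧
        (r H (Fintype.card ι) : ℝ) ≤ (Nat.card H : ℝ) ^ (2 * ε * Fintype.card ι) * rG H G) ∧
      ∀ ρ : ℝ, 0 ≤ ρ → ρ < lam H →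
        (∃ δ : ℝ, 0 < δ ∧ ∃ n₀ : ℕ, ∀ (ι : Type) [Fintype ι] (G : Subgroup (Equiv.Perm ι)),
          n₀ ≤ Fintype.card ι → Theta G δ ≤ 1 / 5 →
            ρ ^ Fintype.card ι ≤ rG H G ∧ (rG H G : ℝ) ≤ lam H ^ Fintype.card ι) ∧
        (∃ C : ℝ, 0 < C ∧ ∀ (ι : Type) [Fintype ι] (G : Subgroup (Equiv.Perm ι)),
          C ≤ Fintype.card ι →
          (∀ g ∈ G, g ≠ 1 → C * (1 + Real.log (Nat.card G)) ≤ moved g) →
            ρ ^ Fintype.card ι ≤ rG H G) ∧
        (∃ n₀ : ℕ, ∀ (Γ : Type) [Group Γ] [Fintype Γ], n₀ ≤ Fintype.card Γ →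
          ∃ A : Finset ((Γ → H) × (Γ → H)), CornerFree A ∧
            (∀ a b : Γ, ∀ q ∈ A, ((fun i => q.1 (a * i * b)), fun i => q.2 (a * i * b)) ∈ A) ∧
            ρ ^ Fintype.card Γ ≤ A.card) ∧
        (∃ m₀ : ℕ, ∀ m ≥ m₀, ∃ A : Finset ((Fin m × Fin m → H) × (Fin m × Fin m → H)),
          CornerFree A ∧
          (∀ π τ : Equiv.Perm (Fin m), ∀ q ∈ A, ((fun i => q.1 (π i.1, τ i.2)),
            fun i => q.2 (π i.1, τ i.2)) ∈ A) ∧
          ρ ^ m ^ 2 ≤ A.card)) ∧
    ∀ (ι : ℕ → Type) [∀ j, Fintype (ι j)] (G : ∀ j, Subgroup (Equiv.Perm (ι j))),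
      Tendsto (fun j => Fintype.card (ι j)) atTop atTop →
      (∀ δ : ℝ, 0 < δ → Tendsto (fun j => Theta (G j) δ) atTop (𝓝 0)) →
      ((∃ c : ℝ, 0 < c ∧ ∃ C : ℝ, ∀ (n : ℕ) (A : Finset ((Fin n → ZMod 2) × (Fin n → ZMod 2))),
          CornerFree A → (A.card : ℝ) ≤ C * (4 : ℝ) ^ ((1 - c) * n)) ↔
        ∃ c : ℝ, 0 < c ∧ ∃ C : ℝ, ∀ (j : ℕ) (A : Finset ((ι j → ZMod 2) × (ι j → ZMod 2))),
          CornerFree A → Inv (G j) A →
            (A.card : ℝ) ≤ C * (4 : ℝ) ^ ((1 - c) * Fintype.card (ι j))) := by
  refine ⟨?_, fun ι _ G hι hG => powerSaving ι G hι hG⟩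
  intro H _ _ _
  refine ⟨fun ε hε hε1 ι _ G hΘ => ineq ε hε hε1 G hΘ, fun ρ hρ0 hρ => ⟨?_, ?_, ?_, ?_⟩⟩
  · obtain ⟨δ, hδ, n₀, h⟩ := growth (H := H) ρ hρ0 hρ
    exact ⟨δ, hδ, n₀, fun ι _ G hn hΘ => h G hn hΘ⟩
  · obtain ⟨C, hC, h⟩ := minDegree (H := H) ρ hρ0 hρ
    exact ⟨C, hC, fun ι _ G hn hμ => h G hn hμ⟩
  · exact groups (H := H) ρ hρ0 hρ
  · exact matrices (H := H) ρ hρ0 hρ

end Pool.Agent.Results.MP_db4732_co.PrescribedSymmetry
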