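import Pool.Agent.U671.SD.Cells
import Pool.Agent.U671.SD.Sharp

/-!
# Corner-free sets with semialgebraic lines

Let `G` be a finite abelian group of order `N`, for instance `F_2^n`. We put the elements of `G` at
points of `ℝ^d` in any way (`d` fixed) and consider corner-free sets `A ⊆ G × G` such that every row
`{y : (x, y) ∈ A}` (or every column, or every diagonal) is cut out by a semialgebraic set of complexity
at most `D`: a Boolean combination of sign conditions on polynomials with sum of the degrees at most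
`D`. The sets may depend on the line in any way, and the placement has nothing to do with the group.

(1) Then `|A| ≤ C D ^ (d / (d + 1)) N ^ (2 - 1 / (d + 1))`, where `C` depends on `d` only.

(2) So there is a power-saving bound for `G = F_2^n` if `D ^ d ≤ 2 ^ ((1 - ε) n)`.

(3) This condition is nearly empty: for *every* `A ⊆ G × G` there is such a placement, with distinct
points, for which all rows are zero sets of polynomials of degree at most `D`, `D ^ d ≤ (2 d) ^ d N` (and
`D ^ d ≤ (2 d) ^ d k` if the rows have at most `k` elements). So the power-saving conjecture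
concerns sets whose lines cannot be described more simply than arbitrary sets.

(4) For `d = 1` and bounded `D` the exponent `3 / 2` in (1) is best possible.

By (1), applied to subsets of `A`, semialgebraic parts of the rows of a corner-free set are small on
average.

Proof of (1). Divide the points into cells with the polynomial partitioning method (Guth and Katz,
starting library `R98/EQ`). A row cuts few cells; if the cell `J` is contained in the rows of all
`x ∈ X`, then `x + y` is injective on `X × J`, as `A` is corner-free.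
-/

set_option autoImplicit false

namespace Pool.Agent.Results.MP_db4732_co.SemialgebraicLines

open MvPolynomial Finset

open scoped Classical

/-- `A` does not contain `(x, y), (x, y + z), (x + z, y)` with `z ≠ 0`. -/
def CornerFree {G : Type} [AddCommGroup G] (A : Finset (G × G)) : Prop :=
  ∀ x y z : G, (x, y) ∈ A → (x, y + z) ∈ A → (x + z, y) ∈ A → z = 0

/-- `S ⊆ ℝ^d` is a Boolean combination of conditions `g > 0`, `g = 0`, `g < 0` on finitely many
polynomials `g` for which the sum of the total degrees is at most `D`. -/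
def SemiAlg (d D : ℕ) (S : Set (Fin d → ℝ)) : Prop :=
  ∃ (t : ℕ) (g : Fin t → MvPolynomial (Fin d) ℝ) (Φ : Set (Fin t → SignType)),
    ∑ r, (g r).totalDegree ≤ D ∧ ∀ x, x ∈ S ↔ (fun r => SignType.sign (eval x (g r))) ∈ Φ

/-- For the points `p y ∈ ℝ^d`, `y ∈ G`, each of the subsets `L s` of `G` is cut out by a semialgebraic
set of complexity at most `D`. -/
def Simple {G : Type} (d D : ℕ) (p : G → Fin d → ℝ) (L : G → Set G) : Prop :=
  ∀ s, ∃ S, SemiAlg d D S ∧ ∀ y, p y ∈ S ↔ y ∈ L s

/-- For some points `p y ∈ ℝ^d`, `y ∈ G`, all rows, or all columns, or all diagonals of `A` are cut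
out by semialgebraic sets of complexity at most `D`. -/
def SimpleLines {G : Type} [AddCommGroup G] (d D : ℕ) (A : Finset (G × G)) : Prop :=
  ∃ p : G → Fin d → ℝ, Simple d D p (fun x => {y | (x, y) ∈ A}) ∨
    Simple d D p (fun y => {x | (x, y) ∈ A}) ∨ Simple d D p (fun s => {y | (s - y, y) ∈ A})

/-- A product set in a corner-free set has at most `|G|` elements. -/
theorem grid {G : Type} [AddCommGroup G] [Fintype G] (A : Finset (G × G)) (hA : CornerFree A)
    (X J : Finset G) (h : ∀ x ∈ X, ∀ y ∈ J, (x, y) ∈ A) : X.card * J.card ≤ Fintype.card G := by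
  rw [← Finset.card_product, ← Finset.card_univ]
  refine Finset.card_le_card_of_injOn (fun q => q.1 + q.2) (fun _ _ => Finset.mem_coe.2 (mem_univ _)) ?_
  rintro ⟨x, y⟩ hxy ⟨x', y'⟩ hxy' heq
  rw [Finset.mem_coe, Finset.mem_product] at hxy hxy'
  simp only at heq hxy hxy'
  have hz : x' - x = 0 := by
    refine hA x y' (x' - x) (h x hxy.1 y' hxy'.2) ?_ ?_
    · have : y' + (x' - x) = y := by
        have h1 : x + y - x = x' + y' - x := by rw [heq]
        rw [add_sub_cancel_left] at h1
        rw [h1]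
        abel
      rw [this]
      exact h x hxy.1 y hxy.2
    · have : x + (x' - x) = x' := by abel
      rw [this]
      exact h x' hxy'.1 y' hxy'.2
  have hx : x' = x := sub_eq_zero.1 hz
  rw [hx] at heq
  rw [hx, add_left_cancel heq]

open Pool.Agent.R98.EQ Pool.Agent.U671.SD in
theorem rows_bound (d : ℕ) (hd : 1 ≤ d) : ∃ K : ℕ, 1 ≤ K ∧
    ∀ (G : Type) [AddCommGroup G] [Fintype G] (A : Finset (G × G)) (D : ℕ), CornerFree A →
      ∀ p : G → Fin d → ℝ, Simple d D p (fun x => {y | (x, y) ∈ A}) → ∀ L : ℕ, 2 * D ≤ 2 ^ L →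
        A.card * 2 ^ L ≤ 2 * K * Fintype.card G * 2 ^ ((d + 1) * L) +
          2 * K * D * Fintype.card G ^ 2 := by
  obtain ⟨K, hK, hcells⟩ := cells d hd
  refine ⟨K, hK, ?_⟩
  intro G _ _ A D hA p hp L hL
  set N : ℕ := Fintype.card G with hN
  let e : Fin N ≃ G := (Fintype.equivFin G).symm
  obtain ⟨κ, hκ, c0, h1, h2, h3, h4⟩ := hcells N (fun i => p (e i)) L D hL
  set c : G → Option κ := fun y => c0 (e.symm y) with hc
  have hcard : ∀ o : Option κ, (univ.filter (fun y => c y = o)).card =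
      (univ.filter (fun i => c0 i = o)).card := by
    intro o
    refine Finset.card_bij' (fun y _ => e.symm y) (fun i _ => e i) ?_ ?_ ?_ ?_
    · intro y hy
      rw [Finset.mem_filter] at hy ⊢
      exact ⟨mem_univ _, hy.2⟩
    · intro i hi
      rw [Finset.mem_filter] at hi ⊢
      refine ⟨mem_univ _, ?_⟩
      rw [hc]
      simp only [Equiv.symm_apply_apply]
      exact hi.2
    · intro y _
      exact e.apply_symm_apply y
    · intro i _
      exact e.symm_apply_apply i
  set cl : κ → Finset G := fun s => univ.filter (fun y => c y = some s) with hcl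
  set row : G → Finset G := fun x => univ.filter (fun y => (x, y) ∈ A) with hrow
  have hA1 : A.card = ∑ x, (row x).card := by
    rw [← Finset.card_sigma]
    refine Finset.card_bij' (fun q _ => ⟨q.1, q.2⟩) (fun q _ => (q.1, q.2)) ?_ ?_ ?_ ?_
    · intro q hq
      rw [Finset.mem_sigma, hrow, Finset.mem_filter]
      exact ⟨mem_univ _, mem_univ _, hq⟩
    · intro q hq
      rw [Finset.mem_sigma, hrow, Finset.mem_filter] at hq
      exact hq.2.2
    · intro q _
      rfl
    · intro q _
      rfl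
  -- the cells cut by a row, and the cells contained in a row
  set Cr : G → Finset κ := fun x => univ.filter (fun s => ∃ y y', c y = some s ∧ c y' = some s ∧
    (x, y) ∈ A ∧ (x, y') ∉ A) with hCr
  set Fu : G → Finset κ := fun x => univ.filter (fun s => ∀ y ∈ cl s, (x, y) ∈ A) with hFu
  have hCrT : ∀ x, (Cr x).card ≤ K * (2 * D) * 2 ^ ((d - 1) * L) := by
    intro x
    obtain ⟨S, ⟨t, g, Φ, hg1, hg2⟩, hS⟩ := hp x
    refine le_trans (Finset.card_le_card ?_) (h4 (List.ofFn g) (by
      unfold degSum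
      rw [List.map_ofFn, List.sum_ofFn]
      exact hg1))
    intro s hs
    rw [hCr, Finset.mem_filter] at hs
    rw [Finset.mem_filter]
    obtain ⟨_, y, y', hy, hy', hyA, hy'A⟩ := hs
    refine ⟨mem_univ _, e.symm y, e.symm y', hy, hy', ?_⟩
    by_contra hcon
    have h5 : (fun r => SignType.sign (eval (p y) (g r))) =
        fun r => SignType.sign (eval (p y') (g r)) := by
      funext r
      by_contra h6
      refine hcon ⟨g r, List.mem_ofFn.2 ⟨r, rfl⟩, ?_⟩
      rw [e.apply_symm_apply, e.apply_symm_apply]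
      exact h6
    have h7 : (x, y) ∈ A ↔ (x, y') ∈ A := by
      have h8 := hS y
      have h9 := hS y'
      change p y ∈ S ↔ (x, y) ∈ A at h8
      change p y' ∈ S ↔ (x, y') ∈ A at h9
      rw [← h8, ← h9, hg2, hg2, h5]
    exact hy'A (h7.1 hyA)
  have hrow1 : ∀ x, (row x).card * 2 ^ L ≤ K * 2 ^ ((d + 1) * L) + 2 * K * D * N +
      (∑ s ∈ Fu x, (cl s).card) * 2 ^ L := by
    intro x
    have hsub : row x ⊆ (univ.filter (fun y => c y = none)) ∪ ((Cr x).biUnion cl ∪
        (Fu x).biUnion cl) := by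
      intro y hy
      rw [hrow, Finset.mem_filter] at hy
      rw [Finset.mem_union, Finset.mem_union, Finset.mem_filter, Finset.mem_biUnion,
        Finset.mem_biUnion]
      rcases hcy : c y with _ | s
      · exact Or.inl ⟨mem_univ _, rfl⟩
      · right
        by_cases hf : ∀ y' ∈ cl s, (x, y') ∈ A
        · exact Or.inr ⟨s, Finset.mem_filter.2 ⟨mem_univ _, hf⟩,
            Finset.mem_filter.2 ⟨mem_univ _, hcy⟩⟩
        · push Not at hf
          obtain ⟨y', hy', hy'A⟩ := hf
          exact Or.inl ⟨s, Finset.mem_filter.2 ⟨mem_univ _, y, y', hcy,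
            (Finset.mem_filter.1 hy').2, hy.2, hy'A⟩, Finset.mem_filter.2 ⟨mem_univ _, hcy⟩⟩
    have hle : (row x).card ≤ K * 2 ^ (d * L) + (∑ s ∈ Cr x, (cl s).card +
        ∑ s ∈ Fu x, (cl s).card) := by
      refine (Finset.card_le_card hsub).trans ((Finset.card_union_le _ _).trans ?_)
      refine Nat.add_le_add ?_ ((Finset.card_union_le _ _).trans
        (Nat.add_le_add Finset.card_biUnion_le Finset.card_biUnion_le))
      rw [hcard none]
      exact h2
    have hcr : (∑ s ∈ Cr x, (cl s).card) * 2 ^ L ≤ 2 * K * D * N := by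
      have h5 : (∑ s ∈ Cr x, (cl s).card) * 2 ^ (d * L) ≤ K * (2 * D) * 2 ^ ((d - 1) * L) * N := by
        rw [Finset.sum_mul]
        calc ∑ s ∈ Cr x, (cl s).card * 2 ^ (d * L) ≤ ∑ s ∈ Cr x, N := by
              refine Finset.sum_le_sum fun s _ => ?_
              rw [hcl]
              simp only
              rw [hcard (some s)]
              exact h3 s
          _ = (Cr x).card * N := by rw [Finset.sum_const, smul_eq_mul]
          _ ≤ _ := Nat.mul_le_mul_right _ (hCrT x)
      have e1 : 2 ^ (d * L) = 2 ^ ((d - 1) * L) * 2 ^ L := by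
        rw [← pow_add]
        congr 1
        obtain ⟨d', rfl⟩ : ∃ d', d = d' + 1 := ⟨d - 1, by omega⟩
        rw [Nat.add_sub_cancel]
        ring
      rw [e1] at h5
      have h6 : (∑ s ∈ Cr x, (cl s).card) * 2 ^ L * 2 ^ ((d - 1) * L) ≤
          2 * K * D * N * 2 ^ ((d - 1) * L) := by
        calc (∑ s ∈ Cr x, (cl s).card) * 2 ^ L * 2 ^ ((d - 1) * L) =
            (∑ s ∈ Cr x, (cl s).card) * (2 ^ ((d - 1) * L) * 2 ^ L) := by ring
          _ ≤ _ := h5
          _ = _ := by ring
      exact Nat.le_of_mul_le_mul_right h6 (by positivity)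
    have e2 : 2 ^ ((d + 1) * L) = 2 ^ (d * L) * 2 ^ L := by
      rw [← pow_add]
      congr 1
      ring
    calc (row x).card * 2 ^ L ≤ (K * 2 ^ (d * L) + (∑ s ∈ Cr x, (cl s).card +
          ∑ s ∈ Fu x, (cl s).card)) * 2 ^ L := Nat.mul_le_mul_right _ hle
      _ = K * (2 ^ (d * L) * 2 ^ L) + (∑ s ∈ Cr x, (cl s).card) * 2 ^ L +
          (∑ s ∈ Fu x, (cl s).card) * 2 ^ L := by ring
      _ ≤ K * 2 ^ ((d + 1) * L) + 2 * K * D * N + (∑ s ∈ Fu x, (cl s).card) * 2 ^ L := by
        rw [← e2]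
        exact Nat.add_le_add_right (Nat.add_le_add_left hcr _) _
  have hfull : ∑ x, ∑ s ∈ Fu x, (cl s).card ≤ K * 2 ^ (d * L) * N := by
    have e3 : ∑ x, ∑ s ∈ Fu x, (cl s).card =
        ∑ s, (univ.filter (fun x => ∀ y ∈ cl s, (x, y) ∈ A)).card * (cl s).card := by
      rw [hFu]
      simp only [Finset.sum_filter]
      rw [Finset.sum_comm]
      refine Finset.sum_congr rfl fun s _ => ?_
      rw [← Finset.sum_filter, Finset.sum_const, smul_eq_mul]
    rw [e3]
    calc ∑ s, (univ.filter (fun x => ∀ y ∈ cl s, (x, y) ∈ A)).card * (cl s).card ≤ ∑ _s : κ, N := by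
          refine Finset.sum_le_sum fun s _ => ?_
          refine grid A hA _ _ ?_
          intro x hx y hy
          exact (Finset.mem_filter.1 hx).2 y hy
      _ = Fintype.card κ * N := by rw [Finset.sum_const, Finset.card_univ, smul_eq_mul]
      _ ≤ K * 2 ^ (d * L) * N := Nat.mul_le_mul_right _ h1
  have e2 : 2 ^ ((d + 1) * L) = 2 ^ (d * L) * 2 ^ L := by
    rw [← pow_add]
    congr 1
    ring
  calc A.card * 2 ^ L = ∑ x, (row x).card * 2 ^ L := by rw [hA1, Finset.sum_mul]
    _ ≤ ∑ x, (K * 2 ^ ((d + 1) * L) + 2 * K * D * N + (∑ s ∈ Fu x, (cl s).card) * 2 ^ L) :=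
        Finset.sum_le_sum fun x _ => hrow1 x
    _ = N * (K * 2 ^ ((d + 1) * L) + 2 * K * D * N) +
        (∑ x, ∑ s ∈ Fu x, (cl s).card) * 2 ^ L := by
        rw [Finset.sum_add_distrib, Finset.sum_const, Finset.card_univ, smul_eq_mul, Finset.sum_mul]
    _ ≤ N * (K * 2 ^ ((d + 1) * L) + 2 * K * D * N) + (K * 2 ^ (d * L) * N) * 2 ^ L :=
        Nat.add_le_add_left (Nat.mul_le_mul_right _ hfull) _
    _ = 2 * K * N * 2 ^ ((d + 1) * L) + 2 * K * D * N ^ 2 := by rw [e2]; ring

/-- The bound for the rows. -/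
theorem rows_final (d : ℕ) (hd : 1 ≤ d) : ∃ C : ℕ, 1 ≤ C ∧
    ∀ (G : Type) [AddCommGroup G] [Fintype G] (A : Finset (G × G)) (D : ℕ), CornerFree A → 1 ≤ D →
      ∀ p : G → Fin d → ℝ, Simple d D p (fun x => {y | (x, y) ∈ A}) →
        A.card ^ (d + 1) ≤ C * D ^ d * Fintype.card G ^ (2 * d + 1) := by
  obtain ⟨K, hK, h⟩ := rows_bound d hd
  refine ⟨(8 * K) ^ (d + 1), Nat.one_le_pow _ _ (by omega), ?_⟩
  intro G _ _ A D hA hD p hp
  set N : ℕ := Fintype.card G with hN
  have hN0 : 0 < N := Fintype.card_pos_iff.2 ⟨0⟩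
  set L : ℕ := Nat.log 2 (D * N) / (d + 1) with hL
  have hDN : D * N ≠ 0 := by positivity
  have hL1 : (2 ^ L) ^ (d + 1) ≤ D * N := by
    rw [← pow_mul]
    exact (Nat.pow_le_pow_right (by norm_num) (Nat.div_mul_le_self _ _)).trans
      (Nat.pow_log_le_self 2 hDN)
  have hL2 : D * N ≤ (2 * 2 ^ L) ^ (d + 1) := by
    have h1 : D * N < 2 ^ (Nat.log 2 (D * N) + 1) := Nat.lt_pow_succ_log_self (by norm_num) _
    refine h1.le.trans ?_
    rw [← pow_succ', ← pow_mul]
    refine Nat.pow_le_pow_right (by norm_num) ?_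
    have := Nat.lt_div_mul_add (a := Nat.log 2 (D * N)) (b := d + 1) (by omega)
    rw [← hL] at this
    linarith
  have hAN : A.card ≤ N ^ 2 := by
    have h1 := Finset.card_le_univ A
    rw [Fintype.card_prod] at h1
    rw [pow_two]
    exact h1
  by_cases hcase : 2 * D ≤ 2 ^ L
  · have h1 := h G A D hA p hp L hcase
    have e1 : 2 ^ ((d + 1) * L) = (2 ^ L) ^ (d + 1) := by
      rw [← pow_mul]
      congr 1
      ring
    rw [e1] at h1
    have h2 : A.card * 2 ^ L ≤ 4 * K * D * N ^ 2 := by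
      refine h1.trans ?_
      calc 2 * K * N * (2 ^ L) ^ (d + 1) + 2 * K * D * N ^ 2
          ≤ 2 * K * N * (D * N) + 2 * K * D * N ^ 2 :=
            Nat.add_le_add_right (Nat.mul_le_mul_left _ hL1) _
        _ = 4 * K * D * N ^ 2 := by ring
    have h3 : (A.card * (2 * 2 ^ L)) ^ (d + 1) ≤ (8 * K * D * N ^ 2) ^ (d + 1) := by
      refine Nat.pow_le_pow_left ?_ _
      calc A.card * (2 * 2 ^ L) = 2 * (A.card * 2 ^ L) := by ring
        _ ≤ 2 * (4 * K * D * N ^ 2) := Nat.mul_le_mul_left _ h2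
        _ = _ := by ring
    rw [mul_pow] at h3
    have h4 : A.card ^ (d + 1) * (D * N) ≤
        ((8 * K) ^ (d + 1) * D ^ d * N ^ (2 * d + 1)) * (D * N) := by
      refine (Nat.mul_le_mul_left _ hL2).trans (h3.trans (le_of_eq ?_))
      have e2 : N ^ (2 * d + 1) * N = (N ^ 2) ^ (d + 1) := by
        rw [← pow_succ, ← pow_mul]
        congr 1
      rw [mul_pow, mul_pow (8 * K) D, ← e2, pow_succ D d]
      ring
    exact Nat.le_of_mul_le_mul_right h4 (by positivity)
  · push Not at hcase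
    have h1 : D * N ≤ D * (4 ^ (d + 1) * D ^ d) := by
      refine hL2.trans ?_
      calc (2 * 2 ^ L) ^ (d + 1) ≤ (4 * D) ^ (d + 1) := Nat.pow_le_pow_left (by omega) _
        _ = D * (4 ^ (d + 1) * D ^ d) := by rw [mul_pow, pow_succ D d]; ring
    have h2 : N ≤ 4 ^ (d + 1) * D ^ d := Nat.le_of_mul_le_mul_left h1 (by omega)
    calc A.card ^ (d + 1) ≤ (N ^ 2) ^ (d + 1) := Nat.pow_le_pow_left hAN _
      _ = N * N ^ (2 * d + 1) := by
        rw [← pow_mul, ← pow_succ']
        congr 1
      _ ≤ (4 ^ (d + 1) * D ^ d) * N ^ (2 * d + 1) := Nat.mul_le_mul_right _ h2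
      _ ≤ ((8 * K) ^ (d + 1) * D ^ d) * N ^ (2 * d + 1) := by
        refine Nat.mul_le_mul_right _ (Nat.mul_le_mul_right _ (Nat.pow_le_pow_left ?_ _))
        omega

/-- The bound for rows, columns or diagonals. -/
theorem lines_final (d : ℕ) (hd : 1 ≤ d) : ∃ C : ℕ, 1 ≤ C ∧
    ∀ (G : Type) [AddCommGroup G] [Fintype G] (A : Finset (G × G)) (D : ℕ), CornerFree A → 1 ≤ D →
      SimpleLines d D A → A.card ^ (d + 1) ≤ C * D ^ d * Fintype.card G ^ (2 * d + 1) := by
  obtain ⟨C, hC, h⟩ := rows_final d hd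
  refine ⟨C, hC, ?_⟩
  intro G _ _ A D hA hD hs
  obtain ⟨p, hp⟩ := hs
  rcases hp with hp | hp | hp
  · exact h G A D hA hD p hp
  · -- columns: interchange the coordinates
    set A' : Finset (G × G) := A.map (Equiv.prodComm G G).toEmbedding with hA'
    have hmem : ∀ x y, (x, y) ∈ A' ↔ (y, x) ∈ A := by
      intro x y
      rw [hA', Finset.mem_map_equiv]
      rfl
    have h1 := h G A' D (by
      intro x y z h1 h2 h3
      rw [hmem] at h1 h2 h3
      exact hA y x z h1 h3 h2) hD p (by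
        intro s
        obtain ⟨S, hS1, hS2⟩ := hp s
        refine ⟨S, hS1, fun y => ?_⟩
        rw [hS2]
        change (y, s) ∈ A ↔ (s, y) ∈ A'
        rw [hmem])
    rw [hA', Finset.card_map] at h1
    exact h1
  · -- diagonals: `(x, y) ↦ (- x - y, y)`
    let τ : G × G ≃ G × G :=
      { toFun := fun q => (- q.1 - q.2, q.2)
        invFun := fun q => (- q.1 - q.2, q.2)
        left_inv := by
          rintro ⟨x, y⟩
          simp only [Prod.mk.injEq, and_true]
          abel
        right_inv := by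
          rintro ⟨x, y⟩
          simp only [Prod.mk.injEq, and_true]
          abel }
    set A' : Finset (G × G) := A.map τ.toEmbedding with hA'
    have hmem : ∀ x y, (x, y) ∈ A' ↔ (- x - y, y) ∈ A := by
      intro x y
      rw [hA', Finset.mem_map_equiv]
      rfl
    have h1 := h G A' D (by
      intro x y z h1 h2 h3
      rw [hmem] at h1 h2 h3
      refine hA (- x - y - z) y z ?_ ?_ ?_
      · have e : - (x + z) - y = - x - y - z := by abel
        rw [← e]
        exact h3
      · have e : - x - (y + z) = - x - y - z := by abel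
        rw [← e]
        exact h2
      · have e : - x - y - z + z = - x - y := by abel
        rw [e]
        exact h1) hD p (by
        intro s
        obtain ⟨S, hS1, hS2⟩ := hp (- s)
        refine ⟨S, hS1, fun y => ?_⟩
        rw [hS2]
        change (- s - y, y) ∈ A ↔ (s, y) ∈ A'
        rw [hmem])
    rw [hA', Finset.card_map] at h1
    exact h1

theorem power_saving (d C : ℕ) (hC : 1 ≤ C) (n a D : ℕ) (ε : ℝ)
    (h : a ^ (d + 1) ≤ C * D ^ d * (2 ^ n) ^ (2 * d + 1))
    (hD : (D : ℝ) ^ d ≤ (2 : ℝ) ^ ((1 - ε) * n)) :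
    (a : ℝ) ≤ C * (4 : ℝ) ^ ((1 - ε / (2 * (d + 1))) * n) := by
  have hC1 : (1 : ℝ) ≤ C := by exact_mod_cast hC
  have hR : (0 : ℝ) < 4 ^ ((1 - ε / (2 * (d + 1))) * n) := by positivity
  have h1 : (a : ℝ) ^ (d + 1) ≤ C * D ^ d * (2 ^ n) ^ (2 * d + 1) := by exact_mod_cast h
  have hd0 : (0 : ℝ) < 2 * (d + 1) := by positivity
  have h2 : (4 : ℝ) ^ ((1 - ε / (2 * (d + 1))) * n) = 2 ^ (2 * ((1 - ε / (2 * (d + 1))) * n)) := by
    rw [Real.rpow_mul (by norm_num) 2]
    congr 1
    norm_num
  have h3 : ((4 : ℝ) ^ ((1 - ε / (2 * (d + 1))) * n)) ^ (d + 1) =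
      2 ^ ((1 - ε) * n) * (2 ^ n) ^ (2 * d + 1) := by
    rw [h2, ← Real.rpow_natCast (2 ^ (2 * ((1 - ε / (2 * (d + 1))) * (n : ℝ)))) (d + 1),
      ← Real.rpow_mul (by norm_num), ← pow_mul, ← Real.rpow_natCast 2 (n * (2 * d + 1)),
      ← Real.rpow_add (by norm_num)]
    congr 1
    push_cast
    field_simp
    ring
  have h4 : (a : ℝ) ^ (d + 1) ≤ (C * (4 : ℝ) ^ ((1 - ε / (2 * (d + 1))) * n)) ^ (d + 1) := by
    rw [mul_pow, h3]
    calc (a : ℝ) ^ (d + 1) ≤ C * D ^ d * (2 ^ n) ^ (2 * d + 1) := h1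
      _ ≤ C * 2 ^ ((1 - ε) * n) * (2 ^ n) ^ (2 * d + 1) := by gcongr
      _ = C * (2 ^ ((1 - ε) * n) * (2 ^ n) ^ (2 * d + 1)) := by ring
      _ ≤ C ^ (d + 1) * (2 ^ ((1 - ε) * n) * (2 ^ n) ^ (2 * d + 1)) := by
        refine mul_le_mul_of_nonneg_right ?_ (by positivity)
        calc (C : ℝ) = C ^ 1 := (pow_one _).symm
          _ ≤ C ^ (d + 1) := pow_le_pow_right₀ hC1 (by omega)
  exact le_of_pow_le_pow_left₀ (by omega) (by positivity) h4

/-- Every set has lines of complexity at most `C N ^ (1 / d)`. -/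
theorem all_sets (d k : ℕ) (hd : 1 ≤ d) (G : Type) [AddCommGroup G] [Fintype G]
    (A : Finset (G × G)) (hk : ∀ x, (univ.filter (fun y => (x, y) ∈ A)).card ≤ k) :
    ∃ (p : G → Fin d → ℝ) (D : ℕ), Function.Injective p ∧ D ^ d ≤ (2 * d) ^ d * k ∧
      Simple d D p (fun x => {y | (x, y) ∈ A}) := by
  obtain ⟨x', D, hinj, hD, h⟩ := Pool.Agent.U671.SD.sharp d (Fintype.card G) k hd
  let e : G ≃ Fin (Fintype.card G) := Fintype.equivFin G
  refine ⟨fun y => x' (e y), D, hinj.comp e.injective, hD, fun x => ?_⟩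
  obtain ⟨g, hg1, hg2⟩ := h ((univ.filter (fun y => (x, y) ∈ A)).map e.toEmbedding) (by
    rw [Finset.card_map]
    exact hk x)
  refine ⟨{v | eval v g = 0}, ⟨1, fun _ => g, {σ | σ 0 = 0}, ?_, ?_⟩, ?_⟩
  · rw [Fin.sum_univ_one]
    exact hg1
  · intro v
    change eval v g = 0 ↔ SignType.sign (eval v g) = 0
    rw [sign_eq_zero_iff]
  · intro y
    change eval (x' (e y)) g = 0 ↔ (x, y) ∈ A
    rw [hg2, Finset.mem_map_equiv, Equiv.symm_apply_apply, Finset.mem_filter]
    exact ⟨fun h => h.2, fun h => ⟨mem_univ _, h⟩⟩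

/-- The exponent `3 / 2` for `d = 1`. -/
theorem example_one (H : Type) [AddCommGroup H] [Fintype H] :
    ∃ (A : Finset ((H × H) × (H × H))) (p : H × H → Fin 1 → ℝ), CornerFree A ∧
      A.card ^ 2 = Fintype.card (H × H) ^ 3 ∧ Function.Injective p ∧
      Simple 1 2 p (fun x => {y | (x, y) ∈ A}) := by
  set h : ℕ := Fintype.card H with hh
  let e : H ≃ Fin h := Fintype.equivFin H
  refine ⟨univ.filter (fun q => q.1.2 = q.2.1), fun y _ => ((e y.1 : ℕ) : ℝ) * h + ((e y.2 : ℕ) : ℝ),
    ?_, ?_, ?_, ?_⟩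
  · rintro ⟨x1, x2⟩ ⟨y1, y2⟩ ⟨z1, z2⟩ h1 h2 h3
    rw [Finset.mem_filter] at h1 h2 h3
    have e1 : x2 = y1 := h1.2
    have e2 : x2 = y1 + z1 := h2.2
    have e3 : x2 + z2 = y1 := h3.2
    have f1 : z1 = 0 := by
      rw [e1] at e2
      exact left_eq_add.1 e2
    have f2 : z2 = 0 := by
      rw [e1] at e3
      exact add_eq_left.1 e3
    rw [f1, f2]
    rfl
  · have h1 : (univ.filter (fun q : (H × H) × (H × H) => q.1.2 = q.2.1)).card = h ^ 3 := by
      have h2 : (univ : Finset (H × H × H)).card = h ^ 3 := by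
        rw [Finset.card_univ, Fintype.card_prod, Fintype.card_prod]
        ring
      rw [← h2]
      refine Finset.card_bij' (fun q _ => (q.1.1, q.1.2, q.2.2)) (fun q _ => ((q.1, q.2.1), (q.2.1, q.2.2)))
        ?_ ?_ ?_ ?_
      · intro q _
        exact mem_univ _
      · intro q _
        rw [Finset.mem_filter]
        exact ⟨mem_univ _, rfl⟩
      · rintro ⟨⟨a, b⟩, ⟨c, f⟩⟩ hq
        rw [Finset.mem_filter] at hq
        have : b = c := hq.2
        subst this
        rfl
      · rintro ⟨a, b, c⟩ _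
        rfl
    rw [h1, Fintype.card_prod]
    ring
  · rintro ⟨a, b⟩ ⟨a', b'⟩ hab
    have h1 := congrFun hab 0
    simp only at h1
    have h2 : (e a : ℕ) * h + (e b : ℕ) = (e a' : ℕ) * h + (e b' : ℕ) := by exact_mod_cast h1
    have hb := (e b).isLt
    have hb' := (e b').isLt
    have h3 : (e b : ℕ) = (e b' : ℕ) := by
      have h5 := congrArg (· % h) h2
      simp only [Nat.mul_add_mod_self_right] at h5
      rwa [Nat.mod_eq_of_lt hb, Nat.mod_eq_of_lt hb'] at h5
    have h4 : (e a : ℕ) = (e a' : ℕ) := by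
      rw [h3] at h2
      exact Nat.eq_of_mul_eq_mul_right (by omega) (Nat.add_right_cancel h2)
    rw [e.injective (Fin.ext h3), e.injective (Fin.ext h4)]
  · rintro ⟨x1, x2⟩
    set a : ℝ := ((e x2 : ℕ) : ℝ) * h with ha
    set g : MvPolynomial (Fin 1) ℝ := (X 0 - C a) * (X 0 - C (a + (h - 1))) with hg
    refine ⟨{v | eval v g ≤ 0}, ⟨1, fun _ => g, {σ | σ 0 ≤ 0}, ?_, ?_⟩, ?_⟩
    · rw [Fin.sum_univ_one, hg]
      refine (totalDegree_mul _ _).trans ?_
      have h1 : ∀ c : ℝ, (X 0 - C c : MvPolynomial (Fin 1) ℝ).totalDegree ≤ 1 := by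
        intro c
        refine (totalDegree_sub _ _).trans (max_le ?_ ?_)
        · rw [totalDegree_X]
        · rw [totalDegree_C]
          exact Nat.zero_le _
      have := h1 a
      have := h1 (a + (h - 1))
      omega
    · intro v
      change eval v g ≤ 0 ↔ SignType.sign (eval v g) ≤ 0
      constructor
      · intro h1
        rcases lt_or_eq_of_le h1 with h2 | h2
        · rw [sign_neg h2]
          decide
        · rw [h2, sign_zero]
      · intro h1
        by_contra hcon
        push Not at hcon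
        rw [sign_pos hcon] at h1
        exact absurd h1 (by decide)
    · rintro ⟨y1, y2⟩
      change eval (fun _ => ((e y1 : ℕ) : ℝ) * h + ((e y2 : ℕ) : ℝ)) g ≤ 0 ↔
        ((x1, x2), (y1, y2)) ∈ univ.filter (fun q : (H × H) × (H × H) => q.1.2 = q.2.1)
      rw [Finset.mem_filter]
      have hev : eval (fun _ => ((e y1 : ℕ) : ℝ) * h + ((e y2 : ℕ) : ℝ)) g =
          ((((e y1 : ℕ) : ℝ) - ((e x2 : ℕ) : ℝ)) * h + ((e y2 : ℕ) : ℝ)) *
          ((((e y1 : ℕ) : ℝ) - ((e x2 : ℕ) : ℝ)) * h + ((e y2 : ℕ) : ℝ) - (h - 1)) := by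
        rw [hg, ha]
        simp only [map_mul, map_sub, eval_X, eval_C]
        ring
      rw [hev]
      have hy2 : ((e y2 : ℕ) : ℝ) ≤ h - 1 := by
        have := (e y2).isLt
        have h2 : ((e y2 : ℕ) : ℝ) + 1 ≤ h := by exact_mod_cast this
        linarith
      have hy20 : (0 : ℝ) ≤ ((e y2 : ℕ) : ℝ) := Nat.cast_nonneg _
      have hh0 : (0 : ℝ) < h := by
        have := (e y2).pos
        exact_mod_cast this
      constructor
      · intro h1
        refine ⟨mem_univ _, ?_⟩
        by_contra hcon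
        have hne : (e y1 : ℕ) ≠ (e x2 : ℕ) := fun h2 => hcon (e.injective (Fin.ext h2)).symm
        rcases Nat.lt_or_gt_of_ne hne with h2 | h2
        · have h3 : ((e y1 : ℕ) : ℝ) + 1 ≤ ((e x2 : ℕ) : ℝ) := by exact_mod_cast h2
          have h4 : (((e y1 : ℕ) : ℝ) - ((e x2 : ℕ) : ℝ)) * h ≤ (-1) * h :=
            mul_le_mul_of_nonneg_right (by linarith) hh0.le
          have h5 : (((e y1 : ℕ) : ℝ) - ((e x2 : ℕ) : ℝ)) * h + ((e y2 : ℕ) : ℝ) < 0 := by linarith
          have h6 : (((e y1 : ℕ) : ℝ) - ((e x2 : ℕ) : ℝ)) * h + ((e y2 : ℕ) : ℝ) - (h - 1) < 0 := by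
            linarith
          exact absurd h1 (not_le.2 (mul_pos_of_neg_of_neg h5 h6))
        · have h3 : ((e x2 : ℕ) : ℝ) + 1 ≤ ((e y1 : ℕ) : ℝ) := by exact_mod_cast h2
          have h4 : 1 * (h : ℝ) ≤ (((e y1 : ℕ) : ℝ) - ((e x2 : ℕ) : ℝ)) * h :=
            mul_le_mul_of_nonneg_right (by linarith) hh0.le
          have h5 : 0 < (((e y1 : ℕ) : ℝ) - ((e x2 : ℕ) : ℝ)) * h + ((e y2 : ℕ) : ℝ) := by linarith
          have h6 : 0 < (((e y1 : ℕ) : ℝ) - ((e x2 : ℕ) : ℝ)) * h + ((e y2 : ℕ) : ℝ) - (h - 1) := by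
            linarith
          exact absurd h1 (not_le.2 (mul_pos h5 h6))
      · rintro ⟨-, h1⟩
        have h2 : x2 = y1 := h1
        rw [h2, sub_self, zero_mul, zero_add]
        exact mul_nonpos_of_nonneg_of_nonpos hy20 (by linarith)

/-- Let `d ≥ 1`. There is `C` such that the following holds.

1. Let `G` be a finite abelian group, `N = |G|`, and `A ⊆ G × G` corner-free. If for some placement
of the elements of `G` at points of `ℝ^d` all rows, or all columns, or all diagonals of `A` are cut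
out by semialgebraic sets of complexity at most `D`, then `|A| ^ (d + 1) ≤ C D ^ d N ^ (2 d + 1)`.
2. If moreover `G = F_2^n` and `D ^ d ≤ 2 ^ ((1 - ε) n)`, then `|A| ≤ C 4 ^ ((1 - ε / (2 (d + 1))) n)`.
3. For every finite abelian group `G` and every `A ⊆ G × G` with at most `k` points in each row there
is such a placement, with distinct points, for which the rows have complexity at most `D`, where
`D ^ d ≤ (2 d) ^ d k`.
4. The exponent in 1 is best possible for `d = 1`, `D = 2`: for every finite abelian group `H`, some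
corner-free `A ⊆ (H × H) ^ 2` with `|H × H| ^ (3 / 2)` elements has rows of complexity at most `2` for
some placement of the elements of `H × H` at distinct points of the line. -/
theorem result (d : ℕ) (hd : 1 ≤ d) : ∃ C : ℕ, 1 ≤ C ∧
    (∀ (G : Type) [AddCommGroup G] [Fintype G] (A : Finset (G × G)) (D : ℕ), CornerFree A → 1 ≤ D →
      SimpleLines d D A → A.card ^ (d + 1) ≤ C * D ^ d * Fintype.card G ^ (2 * d + 1)) ∧
    (∀ (n : ℕ) (A : Finset ((Fin n → ZMod 2) × (Fin n → ZMod 2))) (D : ℕ) (ε : ℝ), CornerFree A →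
      1 ≤ D → SimpleLines d D A → (D : ℝ) ^ d ≤ (2 : ℝ) ^ ((1 - ε) * n) →
      (A.card : ℝ) ≤ C * (4 : ℝ) ^ ((1 - ε / (2 * (d + 1))) * n)) ∧
    (∀ (k : ℕ) (G : Type) [AddCommGroup G] [Fintype G] (A : Finset (G × G)),
      (∀ x, (univ.filter (fun y => (x, y) ∈ A)).card ≤ k) →
      ∃ (p : G → Fin d → ℝ) (D : ℕ), Function.Injective p ∧ D ^ d ≤ (2 * d) ^ d * k ∧
        Simple d D p (fun x => {y | (x, y) ∈ A})) ∧
    (∀ (H : Type) [AddCommGroup H] [Fintype H],
      ∃ (A : Finset ((H × H) × (H × H))) (p : H × H → Fin 1 → ℝ), CornerFree A ∧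
        A.card ^ 2 = Fintype.card (H × H) ^ 3 ∧ Function.Injective p ∧
        Simple 1 2 p (fun x => {y | (x, y) ∈ A})) := by
  obtain ⟨C, hC, h⟩ := lines_final d hd
  refine ⟨C, hC, fun G _ _ A D hA hD hs => h G A D hA hD hs, ?_, ?_, ?_⟩
  · intro n A D ε hA hD hs hDn
    have h1 := h (Fin n → ZMod 2) A D hA hD hs
    have hcard : Fintype.card (Fin n → ZMod 2) = 2 ^ n := by
      rw [Fintype.card_fun, Fintype.card_fin, ZMod.card]
    rw [hcard] at h1
    exact power_saving d C hC n A.card D ε h1 hDn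
  · intro k G _ _ A hk
    exact all_sets d k hd G A hk
  · intro H _ _
    exact example_one H

end Pool.Agent.Results.MP_db4732_co.SemialgebraicLines
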