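import Pool.Agent.U465.SR.Corner
import Pool.Agent.U465.SR.Part2

set_option autoImplicit false

/-!
# Corner-free subsets of sparse random subsets of `(F_p^n)^2`

Let `S` be the random subset of `(F_p^n)^2` (for the problem: `p = 2`) which contains each element with
probability `q`, and `α(S)` the largest size of a corner-free subset of `S`. For `q = 1` this is the
largest size `r(n)` of a corner-free set. We determine the order of magnitude for all `q` and `n` in terms
of the numbers `r(m)`: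

`α(S) ≍ q p^{2h} r(n-h)`, where `h = ⌈2 log_p (1/q)⌉ ≤ n`,

and `α(S) ≍ q p^{2n}` if `p^n q^2 ≤ 1`. So if `λ` is the growth rate of `r(n)` and `q = p^{-τ n}`,
`0 ≤ τ < 2`, then with probability tending to one `log_p α(S) / n` is close to
`2 - τ - (2 - log_p λ) (1 - 2 τ)^+`,
and for every density exponent `τ < 1/2` the power saving asked for in the problem is equivalent to a
power saving for the corner-free subsets of the `p^{-τ n}`-random sets. The same method shows that the
number of all corner-free sets is `2^{Θ(r(n))}`.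

The proof uses containers (`Pool.Agent.U465.SR.Cont`; the container lemma is the one of
`Pool.Agent.Y940.CT.Fp`) and the supersaturation of corners given by random affine maps. The costs of the
steps of the container algorithm form a convergent geometric series: this uses the supermultiplicativity
of `r(n)` and `λ > p^{3/2}` (for `p = 2`: `MP_db4732_co.CornerFreeLower`, for odd `p`: the sets of pairs
`(x, y)` with `x - y` in a set without three-term progressions).
-/

open Finset Filter Topology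

namespace Pool.Agent.Results.MP_db4732_co.SparseRandom

open Pool.Agent.U465.Co (CornerFree r lam r_le_lam lam_ge r_ge)
open Pool.Agent.U465.SR

open scoped Classical in
/-- The largest size of a corner-free subset of `S ⊆ (F_p^n)^2`. -/
noncomputable def al {p n : ℕ} (S : Finset ((Fin n → ZMod p) × (Fin n → ZMod p))) : ℕ :=
  alph CornerFree S

/-- `h = ⌈2 log_p (1 / q)⌉`. -/
noncomputable def hh (p : ℕ) (q : ℝ) : ℕ := ⌈2 * Real.logb p (1 / q)⌉₊

/-- The main term `q p^(2h) r(n - h)`, where `r(m)` is the largest size of a corner-free subset of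
`(F_p^m)^2`. -/
noncomputable def mu (p n : ℕ) (q : ℝ) : ℝ :=
  q * (r (ZMod p) (n - hh p q) * ((p : ℝ) ^ 2) ^ hh p q)

/-- The exponent `2 - τ - (2 - log_p λ) (1 - 2 τ)^+`, where `λ = lam (ZMod p)`. -/
noncomputable def ex (p : ℕ) (τ : ℝ) : ℝ :=
  2 - τ - (2 - Real.logb p (lam (ZMod p))) * max 0 (1 - 2 * τ)

open scoped Classical in
/-- The number of the corner-free subsets of `(F_p^n)^2`. -/
noncomputable def num (p n : ℕ) [Fact p.Prime] : ℕ :=
  (univ.filter (fun A : Finset ((Fin n → ZMod p) × (Fin n → ZMod p)) => CornerFree A)).card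

/-- **Corner-free subsets of sparse random sets.** `S` is a `q`-random subset of `(F_p^n)^2`, `Pr q univ`
is the probability and `EE q univ` the expectation.

(1) If `0 < q ≤ 1` and `p^n q^2 ≥ 1` then `hh p q ≤ n`, the mean of `α(S)` is between `c μ` and `C μ`,
and `α(S) < C μ` with probability at least `1 - exp (-μ)`, where `μ = mu p n q`.
(2) If `0 ≤ q ≤ 1` and `p^n q^2 ≤ 1` then the mean of `α(S)` is between `q p^(2n) / 4` and `q p^(2n)`.
(3) The variance of `α(S)` is at most its mean.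
(4) For `0 ≤ τ < 2` and `q = p^{-τ n}`, with probability tending to one `α(S) = p^{(ex p τ + o(1)) n}`.
(5) For every `τ < 1/2`: the power saving bound for corner-free sets holds if and only if, for some
`δ > 0`, with probability tending to one the `p^{-τ n}`-random set has no corner-free subset with
`p^{(2 - τ - δ) n}` elements.
(6) The number of the corner-free subsets of `(F_p^n)^2` is between `2 ^ r(n)` and `2 ^ (C r(n))`. -/
theorem result (p : ℕ) [Fact p.Prime] :
    (∃ c C : ℝ, 0 < c ∧ 0 < C ∧ ∀ (n : ℕ) (q : ℝ), 0 < q → q ≤ 1 → 1 ≤ (p : ℝ) ^ n * q ^ 2 →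
      hh p q ≤ n ∧
      c * mu p n q ≤ EE q (univ : Finset ((Fin n → ZMod p) × (Fin n → ZMod p)))
        (fun S => (al S : ℝ)) ∧
      EE q (univ : Finset ((Fin n → ZMod p) × (Fin n → ZMod p))) (fun S => (al S : ℝ)) ≤
        C * mu p n q ∧
      Pr q (univ : Finset ((Fin n → ZMod p) × (Fin n → ZMod p)))
        (fun S => C * mu p n q ≤ al S) ≤ Real.exp (-mu p n q)) ∧
    (∀ (n : ℕ) (q : ℝ), 0 ≤ q → q ≤ 1 → (p : ℝ) ^ n * q ^ 2 ≤ 1 →
      1 / 4 * (q * ((p : ℝ) ^ 2) ^ n) ≤
        EE q (univ : Finset ((Fin n → ZMod p) × (Fin n → ZMod p))) (fun S => (al S : ℝ)) ∧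
      EE q (univ : Finset ((Fin n → ZMod p) × (Fin n → ZMod p))) (fun S => (al S : ℝ)) ≤
        q * ((p : ℝ) ^ 2) ^ n) ∧
    (∀ (n : ℕ) (q : ℝ), 0 ≤ q → q ≤ 1 →
      EE q (univ : Finset ((Fin n → ZMod p) × (Fin n → ZMod p))) (fun S => ((al S : ℝ) -
        EE q (univ : Finset ((Fin n → ZMod p) × (Fin n → ZMod p))) (fun S => (al S : ℝ))) ^ 2) ≤
      EE q (univ : Finset ((Fin n → ZMod p) × (Fin n → ZMod p))) (fun S => (al S : ℝ))) ∧
    (∀ τ : ℝ, 0 ≤ τ → τ < 2 → ∀ ε : ℝ, 0 < ε →
      Tendsto (fun n : ℕ => Pr ((p : ℝ) ^ (-(τ * n)))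
        (univ : Finset ((Fin n → ZMod p) × (Fin n → ZMod p))) (fun S =>
        (p : ℝ) ^ ((ex p τ - ε) * n) ≤ al S ∧ (al S : ℝ) ≤ (p : ℝ) ^ ((ex p τ + ε) * n)))
        atTop (nhds 1)) ∧
    (∀ τ : ℝ, 0 ≤ τ → τ < 1 / 2 →
      ((∃ C c : ℝ, 0 < C ∧ 0 < c ∧ ∀ n : ℕ, 1 ≤ n →
          ∀ A : Finset ((Fin n → ZMod p) × (Fin n → ZMod p)), CornerFree A →
          (A.card : ℝ) ≤ C * ((p : ℝ) ^ 2) ^ ((1 - c) * n)) ↔
        ∃ δ : ℝ, 0 < δ ∧ Tendsto (fun n : ℕ => Pr ((p : ℝ) ^ (-(τ * n)))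
          (univ : Finset ((Fin n → ZMod p) × (Fin n → ZMod p))) (fun S =>
          (p : ℝ) ^ ((2 - τ - δ) * n) ≤ al S)) atTop (nhds 0))) ∧
    (∃ C : ℝ, 0 < C ∧ ∀ n : ℕ, 2 ^ r (ZMod p) n ≤ num p n ∧
      (num p n : ℝ) ≤ (2 : ℝ) ^ (C * r (ZMod p) n)) := by
  classical
  have hpp : p.Prime := Fact.out
  have hp0 : (0 : ℝ) < p := by exact_mod_cast hpp.pos
  have hp1 : (1 : ℝ) < p := by exact_mod_cast hpp.one_lt
  have hcard : ((Fintype.card (ZMod p × ZMod p) : ℕ) : ℝ) = (p : ℝ) ^ 2 := by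
    rw [Fintype.card_prod, ZMod.card]
    push_cast
    ring
  have hcard2 : p ≤ Fintype.card (ZMod p × ZMod p) := by
    rw [Fintype.card_prod, ZMod.card]
    exact Nat.le_mul_self p
  have h31 : ((3 : ℕ) : ℝ) - 1 = 2 := by norm_num
  have hal : ∀ (n : ℕ) (S : Finset (Fin n → ZMod p × ZMod p)),
      al (S.map (ee p n).toEmbedding) = alph (Free (ptv (p := p) (aCo p) n)) S := by
    intro n S
    unfold al
    rw [al_corner]
  have hPr : ∀ (n : ℕ) (q : ℝ) (E : ℝ → Prop),
      Pr q (univ : Finset ((Fin n → ZMod p) × (Fin n → ZMod p))) (fun S => E (al S)) =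
      Pr q (univ : Finset (Fin n → ZMod p × ZMod p))
        (fun S => E (alph (Free (ptv (p := p) (aCo p) n)) S)) := by
    intro n q E
    unfold Pr
    rw [EE_map (ee p n)]
    simp only [hal]
  have hEE : ∀ (n : ℕ) (q : ℝ) (f : ℝ → ℝ),
      EE q (univ : Finset ((Fin n → ZMod p) × (Fin n → ZMod p))) (fun S => f (al S)) =
      EE q (univ : Finset (Fin n → ZMod p × ZMod p))
        (fun S => f (alph (Free (ptv (p := p) (aCo p) n)) S)) := by
    intro n q f
    rw [EE_map (ee p n)]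
    simp only [hal]
  have hinj := aCo_inj (p := p)
  have hlam2 : 2 ≤ lam (ZMod p) := lam_ge
  have hlamp : lam (ZMod p) ≤ ((Fintype.card (ZMod p × ZMod p) : ℕ) : ℝ) := by
    rw [hcard]
    exact lamCo_le
  have hlt : ((Fintype.card (ZMod p × ZMod p) : ℕ) : ℝ) <
      lam (ZMod p) * (p : ℝ) ^ (1 / (((3 : ℕ) : ℝ) - 1)) := by
    rw [hcard]
    exact lt_lamCo
  have hr : ∀ m, (rr p (aCo p) m : ℝ) ≤ lam (ZMod p) ^ m := by
    intro m
    rw [rrCo_eq]
    exact r_le_lam m
  have hr' : ∀ ρ : ℝ, 1 ≤ ρ → ρ < lam (ZMod p) → ∃ n₀ : ℕ, ∀ n ≥ n₀,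
      ρ ^ n ≤ (rr p (aCo p) n : ℝ) := by
    intro ρ h1 h2
    obtain ⟨n₀, h3⟩ := r_ge (H := ZMod p) ρ h1 h2
    refine ⟨n₀, fun n hn => ?_⟩
    rw [rrCo_eq]
    exact h3 n hn
  have hlogp : Real.logb p (p : ℝ) = 1 := Real.logb_self_eq_one hp1
  have hlogp2 : Real.logb p ((p : ℝ) ^ 2) = 2 := by
    rw [Real.logb_pow, hlogp]
    norm_num
  have hex : ∀ τ : ℝ, Real.logb p ((Fintype.card (ZMod p × ZMod p) : ℕ) : ℝ) - τ -
      Real.logb p (((Fintype.card (ZMod p × ZMod p) : ℕ) : ℝ) / lam (ZMod p)) *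
        max 0 (1 - (((3 : ℕ) : ℝ) - 1) * τ) = ex p τ := by
    intro τ
    rw [hcard, Real.logb_div (by positivity) (by linarith), hlogp2, ex, h31]
  have hlim : ∀ τ : ℝ, 0 ≤ τ → τ < 2 → ∀ ε : ℝ, 0 < ε →
      Tendsto (fun n : ℕ => Pr ((p : ℝ) ^ (-(τ * n)))
        (univ : Finset ((Fin n → ZMod p) × (Fin n → ZMod p))) (fun S =>
        (p : ℝ) ^ ((ex p τ - ε) * n) ≤ al S ∧ (al S : ℝ) ≤ (p : ℝ) ^ ((ex p τ + ε) * n)))
        atTop (nhds 1) := by
    intro τ hτ0 hτ1 ε hε
    have h1 := lim (p := p) (aCo p) hinj (by norm_num) hcard2 (lam (ZMod p)) (by linarith) hlamp hlt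
      hr hr' τ hτ0 (by rw [hcard, hlogp2]; exact hτ1) ε hε
    rw [hex] at h1
    refine h1.congr fun n => ?_
    exact (hPr n _ (fun x => (p : ℝ) ^ ((ex p τ - ε) * n) ≤ x ∧
      x ≤ (p : ℝ) ^ ((ex p τ + ε) * n))).symm
  have hmul : ∀ m n, rr p (aCo p) m * rr p (aCo p) n ≤ rr p (aCo p) (m + n) := by
    intro m n
    rw [rrCo_eq, rrCo_eq, rrCo_eq]
    exact Pool.Agent.U465.Co.r_mul (H := ZMod p) m n
  obtain ⟨θ, K, t1, t2, t3, t4, t5⟩ := scales (p := p) (aCo p) hinj (by norm_num) (lam (ZMod p))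
    (by linarith) hlamp hlt hr' hmul
  refine ⟨?_, ?_, ?_, hlim, ?_, ?_⟩
  · obtain ⟨c, C, hc, hC, h6⟩ := orderV (p := p) (aCo p) hinj (by norm_num) hcard2 θ K t1 t2
      t3 t4 t5
    refine ⟨c, C, hc, hC, fun n q hq0 hq1 hq => ?_⟩
    obtain ⟨g1, g2, g3, g4, _⟩ := h6 n q (range_le (by norm_num) hq0.le hq) hq1 (hh p q)
      (by rw [hh, h31]) (mu p n q) (by rw [mu, rrCo_eq, hcard])
    refine ⟨g1, ?_, ?_, ?_⟩
    · rw [hEE n q (fun x => x)]
      exact g2
    · rw [hEE n q (fun x => x)]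
      exact g3
    · rw [hPr n q (fun x => C * mu p n q ≤ x)]
      exact g4
  · intro n q hq0 hq1 hq
    obtain ⟨g1, g2, g3⟩ := lowV (p := p) (aCo p) hinj (by norm_num) n q hq0 hq1 hq
    rw [hcard] at g1 g3
    rw [hEE n q (fun x => x)]
    exact ⟨g1.trans g2, g3⟩
  · intro n q hq0 hq1
    rw [hEE n q (fun x => x), hEE n q (fun x => (x - EE q univ
      (fun S => (alph (Free (ptv (p := p) (aCo p) n)) S : ℝ))) ^ 2)]
    exact var_alph hq0 hq1 (fun t ht => notMem_empty _ (ht 0))
      (fun I J h hI => hI.mono h) _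
  · intro τ hτ0 hτ
    have hτ2 : 2 * τ < 1 := by linarith
    have hτ1 : τ < 2 := by linarith
    have hmax : max 0 (1 - 2 * τ) = 1 - 2 * τ := max_eq_right (by linarith)
    have hq0 : ∀ n : ℕ, 0 ≤ (p : ℝ) ^ (-(τ * n)) := fun n => by positivity
    have hq1 : ∀ n : ℕ, (p : ℝ) ^ (-(τ * n)) ≤ 1 := fun n =>
      Real.rpow_le_one_of_one_le_of_nonpos hp1.le (by
        rw [neg_nonpos]
        positivity)
    have hps : (∃ C c : ℝ, 0 < C ∧ 0 < c ∧ ∀ n : ℕ, 1 ≤ n →
        ∀ A : Finset ((Fin n → ZMod p) × (Fin n → ZMod p)), CornerFree A →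
        (A.card : ℝ) ≤ C * ((p : ℝ) ^ 2) ^ ((1 - c) * n)) ↔ lam (ZMod p) < (p : ℝ) ^ 2 := by
      constructor
      · rintro ⟨C, c, _, hc, h⟩
        by_contra hcon
        push Not at hcon
        have h0 : (0 : ℝ) < ((p : ℝ) ^ 2) ^ (1 - c) := by positivity
        have hp2 : (1 : ℝ) < (p : ℝ) ^ 2 := one_lt_pow₀ hp1 (by norm_num)
        have h1 : ((p : ℝ) ^ 2) ^ (1 - c) < lam (ZMod p) := by
          refine lt_of_lt_of_le ?_ hcon
          calc ((p : ℝ) ^ 2) ^ (1 - c) < ((p : ℝ) ^ 2) ^ (1 : ℝ) :=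
                Real.rpow_lt_rpow_of_exponent_lt hp2 (by linarith)
            _ = _ := Real.rpow_one _
        obtain ⟨ρ, hρ1, hρ2⟩ := exists_between (max_lt h1 (by linarith : (1 : ℝ) < lam (ZMod p)))
        have hρ3 : 1 ≤ ρ := ((le_max_right _ _).trans_lt hρ1).le
        obtain ⟨n₀, hn₀⟩ := r_ge (H := ZMod p) ρ hρ3 hρ2
        have hratio : 1 < ρ / ((p : ℝ) ^ 2) ^ (1 - c) := by
          rw [one_lt_div h0]
          exact (le_max_left _ _).trans_lt hρ1
        obtain ⟨N, hN⟩ := pow_unbounded_of_one_lt C hratio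
        set n := max (max n₀ N) 1 with hn
        obtain ⟨A, hA, hAc⟩ := Pool.Agent.U465.Co.exists_r (H := ZMod p) n
        have h2 := h n (le_max_right _ _) A hA
        rw [hAc] at h2
        have h3 := hn₀ n ((le_max_left _ _).trans (le_max_left _ _))
        have h4 : ((p : ℝ) ^ 2) ^ ((1 - c) * n) = (((p : ℝ) ^ 2) ^ (1 - c)) ^ n := by
          rw [← Real.rpow_natCast (((p : ℝ) ^ 2) ^ (1 - c)), ← Real.rpow_mul (by positivity)]
        rw [h4] at h2
        have h5 : (ρ / ((p : ℝ) ^ 2) ^ (1 - c)) ^ n ≤ C := by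
          rw [div_pow, div_le_iff₀ (by positivity)]
          exact h3.trans h2
        have h6 : (ρ / ((p : ℝ) ^ 2) ^ (1 - c)) ^ N ≤ (ρ / ((p : ℝ) ^ 2) ^ (1 - c)) ^ n :=
          pow_le_pow_right₀ hratio.le ((le_max_right _ _).trans (le_max_left _ _))
        linarith
      · intro h
        have hp2 : (1 : ℝ) < (p : ℝ) ^ 2 := one_lt_pow₀ hp1 (by norm_num)
        set c : ℝ := 1 - Real.logb ((p : ℝ) ^ 2) (lam (ZMod p)) with hc
        have hc0 : 0 < c := by
          have h1 := Real.logb_lt_logb hp2 (by linarith) h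
          rw [Real.logb_self_eq_one hp2] at h1
          linarith
        refine ⟨1, c, one_pos, hc0, fun n _ A hA => ?_⟩
        rw [one_mul]
        calc (A.card : ℝ) ≤ r (ZMod p) n := by
              exact_mod_cast Pool.Agent.U465.Co.card_le_r hA
          _ ≤ lam (ZMod p) ^ n := r_le_lam n
          _ = _ := by
              have h1 : 1 - c = Real.logb ((p : ℝ) ^ 2) (lam (ZMod p)) := by
                rw [hc]
                ring
              rw [h1, Real.rpow_mul (by positivity), Real.rpow_logb (by positivity) hp2.ne'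
                (by linarith), Real.rpow_natCast]
    rw [hps]
    constructor
    · intro hl
      have hc : 0 < 2 - Real.logb p (lam (ZMod p)) := by
        have h1 := Real.logb_lt_logb hp1 (by linarith) hl
        rw [hlogp2] at h1
        linarith
      set d : ℝ := (2 - Real.logb p (lam (ZMod p))) * (1 - 2 * τ) with hd
      have hd0 : 0 < d := mul_pos hc (by linarith)
      refine ⟨d / 2, by linarith, ?_⟩
      have h1 := hlim τ hτ0 hτ1 (d / 4) (by linarith)
      have h2 := h1.const_sub 1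
      rw [sub_self] at h2
      refine squeeze_zero' (Eventually.of_forall fun n => Pr_nonneg (hq0 n) (hq1 n) _ _) ?_ h2
      filter_upwards [eventually_ge_atTop 1] with n hn
      have h4 : Pr ((p : ℝ) ^ (-(τ * n))) (univ : Finset ((Fin n → ZMod p) × (Fin n → ZMod p)))
          (fun S => (p : ℝ) ^ ((ex p τ - d / 4) * n) ≤ al S ∧
          (al S : ℝ) ≤ (p : ℝ) ^ ((ex p τ + d / 4) * n)) +
          Pr ((p : ℝ) ^ (-(τ * n))) (univ : Finset ((Fin n → ZMod p) × (Fin n → ZMod p)))
          (fun S => (p : ℝ) ^ ((2 - τ - d / 2) * n) ≤ al S) ≤ 1 := by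
        unfold Pr
        rw [← EE_add]
        refine le_trans (EE_mono (hq0 n) (hq1 n) fun S _ => ?_)
          (EE_one (q := (p : ℝ) ^ (-(τ * n)))
            (univ : Finset ((Fin n → ZMod p) × (Fin n → ZMod p)))).le
        by_cases h5 : (p : ℝ) ^ ((2 - τ - d / 2) * n) ≤ al S
        · rw [if_pos h5, if_neg, zero_add]
          rintro ⟨_, h6⟩
          have h7 := h5.trans h6
          rw [Real.rpow_le_rpow_left_iff hp1, ex, hmax, ← hd] at h7
          have hn0 : (0 : ℝ) < n := by exact_mod_cast hn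
          nlinarith
        · rw [if_neg h5]
          split_ifs <;> norm_num
      linarith
    · rintro ⟨δ, hδ, h1⟩
      by_contra hl
      have hl2 : lam (ZMod p) = (p : ℝ) ^ 2 := le_antisymm lamCo_le (not_lt.1 hl)
      have hex2 : ex p τ = 2 - τ := by
        rw [ex, hl2, hlogp2]
        ring
      have h2 := hlim τ hτ0 hτ1 δ hδ
      have h3 := le_of_tendsto_of_tendsto' h2 h1 fun n => Pr_mono (hq0 n) (hq1 n)
        fun S _ hS => by
          rw [hex2] at hS
          exact hS.1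
      norm_num at h3

  · obtain ⟨c, C, hc, hC, g1, _, _⟩ := partAll (p := p) (aCo p) hinj (by norm_num) hcard2
      θ K t1 t2 t3 t4 t5
    have hl2 : 0 < Real.log 2 := Real.log_pos (by norm_num)
    have hnum : ∀ n : ℕ, (num p n : ℝ) = ZZ 1 (Free (ptv (p := p) (aCo p) n)) univ := by
      intro n
      rw [← card_eq_ZZ, corner_eq, powerset_univ]
      unfold num
      congr 1
      refine (card_bij (fun S _ => S.map (ee p n).toEmbedding) ?_ ?_ ?_).symm
      · intro S hS
        rw [mem_filter] at hS ⊢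
        exact ⟨mem_univ _, hS.2⟩
      · intro S _ T _ h
        exact map_injective _ h
      · intro T hT
        rw [mem_filter] at hT
        have h1 : (T.map (ee p n).symm.toEmbedding).map (ee p n).toEmbedding = T := by
          rw [Finset.map_map]
          simp
        refine ⟨T.map (ee p n).symm.toEmbedding, ?_, h1⟩
        rw [mem_filter, h1]
        exact ⟨mem_univ _, hT.2⟩
    have hlow : ∀ n : ℕ, 2 ^ r (ZMod p) n ≤ num p n := by
      intro n
      have h6 : ((2 ^ r (ZMod p) n : ℕ) : ℝ) ≤ (num p n : ℝ) := by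
        rw [hnum]
        have h7 := ZZ_lower (β := 1) zero_le_one
          (show Free (ptv (p := p) (aCo p) n) ∅ from fun t ht => notMem_empty _ (ht 0))
          (fun I J h hI => hI.mono h) univ
        have h8 : alph (Free (ptv (p := p) (aCo p) n)) univ = r (ZMod p) n := rrCo_eq n
        rw [h8] at h7
        push_cast
        norm_num at h7
        exact h7
      exact_mod_cast h6
    refine ⟨C, hC, fun n => ⟨hlow n, ?_⟩⟩
    have hnum0 : (0 : ℝ) < num p n := by
      have h6 : 0 < 2 ^ r (ZMod p) n := by positivity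
      exact_mod_cast h6.trans_le (hlow n)
    rw [← Real.logb_le_iff_le_rpow (by norm_num) hnum0]
    unfold Real.logb
    rw [div_le_iff₀ hl2, hnum]
    have h6 := (g1 n 1 le_rfl).2
    rw [rrCo_eq] at h6
    norm_num at h6
    linarith

end Pool.Agent.Results.MP_db4732_co.SparseRandom
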